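import Pool.Agent.Helper63.RieszComplete

/-!
Exponential Riesz bases for the symmetric additive measures `ρ_t`, for every real `t`,
with one explicit countable frequency set that works for all `t`.
-/

open MeasureTheory Set

namespace Pool.Agent.Results.MP_1d4ba1_an.RieszAll

/-- Lebesgue measure restricted to `[t, t + 1]`. -/
noncomputable def mu (t : ℝ) : Measure ℝ := volume.restrict (Icc t (t + 1))

/-- The symmetric additive measure `ρ_t = (μ_t × δ_0 + δ_0 × μ_t) / 2` on the plane. -/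
noncomputable def rho (t : ℝ) : Measure (ℝ × ℝ) :=
  (1 / 2 : ENNReal) • ((mu t).prod (Measure.dirac 0) + (Measure.dirac 0).prod (mu t))

/-- The exponential `e_{a,b}(x,y) = exp (2 π i (a x + b y))`, with `p = (a, b)`, `z = (x, y)`. -/
noncomputable def expo (p z : ℝ × ℝ) : ℂ :=
  Complex.exp (2 * Real.pi * Complex.I * (p.1 * z.1 + p.2 * z.2))

/-- Riesz basis of a Hilbert space: a complete family with two-sided `ℓ²` bounds on finite
linear combinations. -/
def IsRieszBasis {ι H : Type*} [NormedAddCommGroup H] [InnerProductSpace ℂ H] (v : ι → H) :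
    Prop :=
  (Submodule.span ℂ (range v)).topologicalClosure = ⊤ ∧
  ∃ A B : ℝ, 0 < A ∧ 0 < B ∧ ∀ c : ι →₀ ℂ,
    A * c.sum (fun _ a => ‖a‖ ^ 2) ≤ ‖c.sum fun i a => a • v i‖ ^ 2 ∧
    ‖c.sum fun i a => a • v i‖ ^ 2 ≤ B * c.sum (fun _ a => ‖a‖ ^ 2)

/-- The frequency set: `(n, n)`, `(2k + 1/3, 4k)`, `(2k - 1/3, 4k + 2)` for integers `n`, `k`. -/
def Lam : Set (ℝ × ℝ) :=
  {p | ∃ n : ℤ, p = ((n : ℝ), (n : ℝ))} ∪ {p | ∃ k : ℤ, p = (2 * (k : ℝ) + 1 / 3, 4 * (k : ℝ))} ∪
    {p | ∃ k : ℤ, p = (2 * (k : ℝ) - 1 / 3, 4 * (k : ℝ) + 2)}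

/-! ### The measure -/

instance (t : ℝ) : IsFiniteMeasure (mu t) := by
  unfold mu; infer_instance

theorem rho_eq (t : ℝ) : rho t = (1 / 2 : ENNReal) •
    ((mu t).map (fun x => (x, (0 : ℝ))) + (mu t).map (Prod.mk (0 : ℝ))) := by
  unfold rho
  rw [Measure.prod_dirac, Measure.dirac_prod]

instance (t : ℝ) : IsFiniteMeasure (rho t) := by
  rw [rho_eq]
  refine ⟨?_⟩
  rw [Measure.smul_apply, smul_eq_mul]
  exact ENNReal.mul_lt_top (by simp) (measure_lt_top _ _)

theorem half_ne : (1 / 2 : ENNReal) ≠ 0 := by simp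

theorem half_ne' : (1 / 2 : ENNReal) ≠ ⊤ := by simp

theorem memLp_fst {t : ℝ} {F : ℝ × ℝ → ℂ} (h : MemLp F 2 (rho t)) :
    MemLp (fun x => F (x, 0)) 2 (mu t) := by
  rw [rho_eq] at h
  have h1 : MemLp F 2 ((mu t).map (fun x => (x, (0 : ℝ)))) := by
    refine h.of_measure_le_smul (c := 2) (by simp) ?_
    rw [smul_smul]
    have : (2 : ENNReal) * (1 / 2) = 1 := by
      rw [one_div]; exact ENNReal.mul_inv_cancel (by simp) (by simp)
    rw [this, one_smul]
    exact Measure.le_add_right le_rfl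
  exact (memLp_map_measure_iff h1.1 (by fun_prop)).1 h1

theorem memLp_snd {t : ℝ} {F : ℝ × ℝ → ℂ} (h : MemLp F 2 (rho t)) :
    MemLp (fun x => F (0, x)) 2 (mu t) := by
  rw [rho_eq] at h
  have h1 : MemLp F 2 ((mu t).map (Prod.mk (0 : ℝ))) := by
    refine h.of_measure_le_smul (c := 2) (by simp) ?_
    rw [smul_smul]
    have : (2 : ENNReal) * (1 / 2) = 1 := by
      rw [one_div]; exact ENNReal.mul_inv_cancel (by simp) (by simp)
    rw [this, one_smul]
    exact Measure.le_add_left le_rfl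
  exact (memLp_map_measure_iff h1.1 (by fun_prop)).1 h1

theorem integral_rho {E : Type*} [NormedAddCommGroup E] [NormedSpace ℝ E] {t : ℝ}
    {G : ℝ × ℝ → E} (h : Integrable G (rho t)) :
    ∫ z, G z ∂(rho t)
      = (1 / 2 : ℝ) • ((∫ x in t..t + 1, G (x, 0)) + ∫ x in t..t + 1, G (0, x)) := by
  rw [rho_eq] at h ⊢
  have h' := (integrable_smul_measure half_ne half_ne').1 h
  obtain ⟨h1, h2⟩ := integrable_add_measure.1 h'
  rw [integral_smul_measure, integral_add_measure h1 h2, integral_map (by fun_prop) h1.1,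
    integral_map (by fun_prop) h2.1]
  have e : (1 / 2 : ENNReal).toReal = (1 / 2 : ℝ) := by simp
  rw [e]
  unfold mu
  rw [integral_Icc_eq_integral_Ioc, integral_Icc_eq_integral_Ioc,
    intervalIntegral.integral_of_le (by linarith), intervalIntegral.integral_of_le (by linarith)]

/-! ### The family -/

open Pool.Agent.Helper63.RieszAux Pool.Agent.Helper63.RieszCore
  Pool.Agent.Helper63.RieszBounds Pool.Agent.Helper63.RieszComplete

theorem norm_expo (p z : ℝ × ℝ) : ‖expo p z‖ = 1 := by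
  unfold expo
  rw [Complex.norm_exp]
  simp

theorem continuous_expo (p : ℝ × ℝ) : Continuous (expo p) := by
  unfold expo
  fun_prop

theorem expo_fst (p : ℝ × ℝ) (x : ℝ) : expo p (x, 0) = ec p.1 x := by
  unfold expo ec
  simp

theorem expo_snd (p : ℝ × ℝ) (x : ℝ) : expo p (0, x) = ec p.2 x := by
  unfold expo ec
  simp

theorem memLp_expo (t : ℝ) (p : ℝ × ℝ) : MemLp (expo p) 2 (rho t) :=
  MemLp.of_bound (continuous_expo p).aestronglyMeasurable 1
    (Filter.Eventually.of_forall fun z => (norm_expo p z).le)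

/-- the class of an exponential in `L²(ρ_t)` -/
noncomputable def eL (t : ℝ) (p : ℝ × ℝ) : Lp ℂ 2 (rho t) := (memLp_expo t p).toLp (expo p)

theorem coe_eL (t : ℝ) (p : ℝ × ℝ) : eL t p =ᵐ[rho t] expo p := MemLp.coeFn_toLp _

/-- enumeration of the frequency set -/
noncomputable def pt (i : Fin 4 × ℤ) : ℝ × ℝ :=
  ![(2 * (i.2 : ℝ), 2 * (i.2 : ℝ)), (2 * (i.2 : ℝ) + 1, 2 * (i.2 : ℝ) + 1),
    (2 * (i.2 : ℝ) + 1 / 3, 4 * (i.2 : ℝ)), (2 * (i.2 : ℝ) - 1 / 3, 4 * (i.2 : ℝ) + 2)] i.1

theorem range_pt : range pt = Lam := by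
  apply Subset.antisymm
  · rintro _ ⟨⟨i, k⟩, rfl⟩
    fin_cases i
    · exact Or.inl (Or.inl ⟨2 * k, by simp [pt]⟩)
    · exact Or.inl (Or.inl ⟨2 * k + 1, by simp [pt]⟩)
    · exact Or.inl (Or.inr ⟨k, by simp [pt]⟩)
    · exact Or.inr ⟨k, by simp [pt]⟩
  · rintro p ((⟨n, rfl⟩ | ⟨k, rfl⟩) | ⟨k, rfl⟩)
    · rcases Int.even_or_odd' n with ⟨m, rfl | rfl⟩
      · exact ⟨(0, m), by simp [pt]⟩
      · exact ⟨(1, m), by simp [pt]⟩
    · exact ⟨(2, k), by simp [pt]⟩
    · exact ⟨(3, k), by simp [pt]⟩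

theorem pt_injective : Function.Injective pt := by
  have third : ∀ a b : ℤ, (3 * a + 1 : ℤ) ≠ 3 * b := fun a b h => by omega
  rintro ⟨i, k⟩ ⟨j, l⟩ h
  have h1 : (pt (i, k)).1 = (pt (j, l)).1 := by rw [h]
  have h2 : (pt (i, k)).2 = (pt (j, l)).2 := by rw [h]
  fin_cases i <;> fin_cases j <;> simp [pt] at h1 h2 ⊢
  all_goals
    first
    | exact_mod_cast h1
    | (exfalso
       have h3 := h1
       field_simp at h3
       norm_cast at h3
       omega)

/-! ### Norms in `L²` -/

theorem norm_sq_Lp {α : Type*} [MeasurableSpace α] {μ : Measure α} (F : Lp ℂ 2 μ) :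
    ‖F‖ ^ 2 = ∫ z, ‖F z‖ ^ 2 ∂μ := by
  have h1 : (inner ℂ F F : ℂ) = ((‖F‖ ^ 2 : ℝ) : ℂ) := by
    rw [inner_self_eq_norm_sq_to_K]; norm_cast
  have h2 : (inner ℂ F F : ℂ) = ((∫ z, ‖F z‖ ^ 2 ∂μ : ℝ) : ℂ) := by
    rw [L2.inner_def, ← integral_complex_ofReal]
    congr 1
    ext z
    rw [inner_self_eq_norm_sq_to_K]; norm_cast
  rw [h1] at h2
  exact_mod_cast h2

theorem coe_sum {α ι : Type*} [MeasurableSpace α] {μ : Measure α} (s : Finset ι)
    (F : ι → Lp ℂ 2 μ) (f : ι → α → ℂ) (h : ∀ i, F i =ᵐ[μ] f i) :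
    (∑ i ∈ s, F i : Lp ℂ 2 μ) =ᵐ[μ] fun z => ∑ i ∈ s, f i z := by
  classical
  induction s using Finset.induction_on with
  | empty => simp only [Finset.sum_empty]; exact Lp.coeFn_zero _ _ _
  | insert a s ha ih =>
    rw [Finset.sum_insert ha]
    filter_upwards [Lp.coeFn_add (F a) (∑ i ∈ s, F i), ih, h a] with z h1 h2 h3
    rw [h1, Pi.add_apply, h2, h3, Finset.sum_insert ha]

/-- a finite combination of the family, evaluated through the four coefficient sequences -/
theorem finsum_eq {M : Type*} [AddCommMonoid M] (c : Fin 4 × ℤ →₀ ℂ) (g : Fin 4 × ℤ → ℂ → M)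
    (hg : ∀ i, g i 0 = 0) :
    c.sum g = ∑ k ∈ c.support.image Prod.snd,
      (g (0, k) (c (0, k)) + g (1, k) (c (1, k)) + g (2, k) (c (2, k)) + g (3, k) (c (3, k))) := by
  classical
  have hs : c.support ⊆ (Finset.univ : Finset (Fin 4)) ×ˢ c.support.image Prod.snd := by
    intro i hi
    rw [Finset.mem_product]
    exact ⟨Finset.mem_univ _, Finset.mem_image_of_mem _ hi⟩
  rw [Finsupp.sum_of_support_subset c hs g (fun i _ => hg i), Finset.sum_product_right]
  exact Finset.sum_congr rfl fun k _ => Fin.sum_univ_four _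

theorem norm_sq_comb (t : ℝ) (c : Fin 4 × ℤ →₀ ℂ) :
    ‖c.sum fun i a => a • eL t (pt i)‖ ^ 2 = (1 / 2) *
      ((∫ x in t..t + 1, ‖fS (c.support.image Prod.snd) (fun k => c (0, k)) (fun k => c (1, k))
          (fun k => c (2, k)) (fun k => c (3, k)) x‖ ^ 2)
        + ∫ x in t..t + 1, ‖gS (c.support.image Prod.snd) (fun k => c (0, k)) (fun k => c (1, k))
          (fun k => c (2, k)) (fun k => c (3, k)) x‖ ^ 2) := by
  classical
  rw [norm_sq_Lp]
  have hco : (c.sum fun i a => a • eL t (pt i) : Lp ℂ 2 (rho t))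
      =ᵐ[rho t] fun z => ∑ i ∈ c.support, c i * expo (pt i) z := by
    refine coe_sum c.support (fun i => c i • eL t (pt i)) (fun i z => c i * expo (pt i) z) ?_
    intro i
    filter_upwards [Lp.coeFn_smul (c i) (eL t (pt i)), coe_eL t (pt i)] with z h1 h2
    rw [h1, Pi.smul_apply, h2, smul_eq_mul]
  have hcont : Continuous fun z => ‖∑ i ∈ c.support, c i * expo (pt i) z‖ ^ 2 :=
    (continuous_finsetSum _ fun i _ => continuous_const.mul (continuous_expo _)).norm.pow 2
  have hbd : ∀ z, ‖∑ i ∈ c.support, c i * expo (pt i) z‖ ≤ ∑ i ∈ c.support, ‖c i‖ := by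
    intro z
    refine (norm_sum_le _ _).trans (Finset.sum_le_sum fun i _ => ?_)
    rw [norm_mul, norm_expo, mul_one]
  have hint : Integrable (fun z => ‖∑ i ∈ c.support, c i * expo (pt i) z‖ ^ 2) (rho t) := by
    refine Integrable.of_bound hcont.aestronglyMeasurable ((∑ i ∈ c.support, ‖c i‖) ^ 2) ?_
    refine Filter.Eventually.of_forall fun z => ?_
    rw [Real.norm_of_nonneg (by positivity)]
    exact pow_le_pow_left₀ (norm_nonneg _) (hbd z) 2
  have e1 : ∫ z, ‖(c.sum fun i a => a • eL t (pt i) : Lp ℂ 2 (rho t)) z‖ ^ 2 ∂(rho t)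
      = ∫ z, ‖∑ i ∈ c.support, c i * expo (pt i) z‖ ^ 2 ∂(rho t) := by
    refine integral_congr_ae ?_
    filter_upwards [hco] with z hz
    rw [hz]
  rw [e1, integral_rho hint, smul_eq_mul]
  congr 2
  · congr 1
    ext x
    congr 2
    have h := finsum_eq c (fun i a => a * ec (pt i).1 x) (fun i => by simp)
    unfold Finsupp.sum at h
    simp only [expo_fst]
    rw [h]
    unfold fS
    refine Finset.sum_congr rfl fun k _ => ?_
    simp [pt]
  · congr 1
    ext x
    congr 2
    have h := finsum_eq c (fun i a => a * ec (pt i).2 x) (fun i => by simp)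
    unfold Finsupp.sum at h
    simp only [expo_snd]
    rw [h]
    unfold gS
    refine Finset.sum_congr rfl fun k _ => ?_
    simp [pt]

theorem orth_zero (t : ℝ) (F : Lp ℂ 2 (rho t)) (h : ∀ i, inner ℂ (eL t (pt i)) F = 0) :
    F = 0 := by
  have hF : MemLp (fun z => F z) 2 (rho t) := Lp.memLp F
  have rel : ∀ i, (∫ x in t..t + 1, ec (-(pt i).1) x * F (x, 0))
      + (∫ x in t..t + 1, ec (-(pt i).2) x * F (0, x)) = 0 := by
    intro i
    have h1 := h i
    rw [L2.inner_def] at h1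
    have e1 : ∫ z, inner ℂ ((eL t (pt i) : Lp ℂ 2 (rho t)) z) (F z) ∂(rho t)
        = ∫ z, expo (-(pt i)) z * F z ∂(rho t) := by
      refine integral_congr_ae ?_
      filter_upwards [coe_eL t (pt i)] with z hz
      rw [hz, RCLike.inner_apply']
      congr 1
      unfold expo
      rw [← Complex.exp_conj]
      congr 1
      simp only [map_mul, map_add, Complex.conj_I, Complex.conj_ofReal, map_ofNat, Prod.fst_neg,
        Prod.snd_neg]
      push_cast
      ring
    rw [e1] at h1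
    have hint : Integrable (fun z => expo (-(pt i)) z * F z) (rho t) := by
      have hm : MemLp (fun z => expo (-(pt i)) z * F z) 2 (rho t) := by
        refine MemLp.of_le hF ((continuous_expo _).aestronglyMeasurable.mul hF.1) ?_
        filter_upwards with z
        rw [norm_mul, norm_expo, one_mul]
      exact hm.integrable (by norm_num)
    rw [integral_rho hint] at h1
    simp only [expo_fst, expo_snd] at h1
    have h2 := (smul_eq_zero.1 h1).resolve_left (by norm_num)
    exact h2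
  have toIoc : ∀ {φ : ℝ → ℂ}, MemLp φ 2 (mu t) → MemLp φ 2 (volume.restrict (Ioc t (t + 1))) :=
    fun hφ => hφ.mono_measure (Measure.restrict_mono Ioc_subset_Icc_self le_rfl)
  have hf := toIoc (memLp_fst hF)
  have hg := toIoc (memLp_snd hF)
  obtain ⟨z1, z2⟩ := complete hf hg
    (fun k => by
      have := rel (0, k)
      simpa [pt] using this)
    (fun k => by
      have := rel (1, k)
      simpa [pt] using this)
    (fun k => by
      have := rel (2, k)
      have e : (2 * ((2 * k : ℤ) : ℝ) + 0) = 4 * (k : ℝ) := by push_cast; ring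
      rw [e]
      simpa [pt] using this)
    (fun k => by
      have := rel (3, k)
      have e : (2 * ((2 * k + 1 : ℤ) : ℝ) + 0) = 4 * (k : ℝ) + 2 := by push_cast; ring
      have e' : (2 * (k : ℝ) + -(1 / 3)) = 2 * (k : ℝ) - 1 / 3 := by ring
      rw [e, e']
      simpa [pt] using this)
  have hn : ‖F‖ ^ 2 = 0 := by
    rw [norm_sq_Lp]
    have hint : Integrable (fun z => ‖F z‖ ^ 2) (rho t) :=
      (memLp_two_iff_integrable_sq_norm hF.1).1 hF
    rw [integral_rho hint, z1, z2]
    simp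
  have : ‖F‖ = 0 := by nlinarith [norm_nonneg F]
  exact norm_eq_zero.1 this

theorem riesz_pt (t : ℝ) : IsRieszBasis (fun i : Fin 4 × ℤ => eL t (pt i)) := by
  classical
  refine ⟨?_, 1 / 964, 4, by norm_num, by norm_num, fun c => ?_⟩
  · rw [Submodule.topologicalClosure_eq_top_iff, Submodule.eq_bot_iff]
    intro F hF
    refine orth_zero t F fun i => ?_
    exact (Submodule.mem_orthogonal _ F).1 hF _ (Submodule.subset_span ⟨i, rfl⟩)
  · rw [norm_sq_comb]
    have hs := finsum_eq c (fun _ a => ‖a‖ ^ 2) (fun i => by simp)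
    rw [hs]
    have h1 := riesz_low (c.support.image Prod.snd) (fun k => c (0, k)) (fun k => c (1, k))
      (fun k => c (2, k)) (fun k => c (3, k)) t
    have h2 := riesz_up (c.support.image Prod.snd) (fun k => c (0, k)) (fun k => c (1, k))
      (fun k => c (2, k)) (fun k => c (3, k)) t
    constructor <;> linarith

theorem IsRieszBasis.comp_equiv {ι κ H : Type*} [NormedAddCommGroup H] [InnerProductSpace ℂ H]
    {v : ι → H} (h : IsRieszBasis v) (σ : κ ≃ ι) : IsRieszBasis (v ∘ σ) := by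
  obtain ⟨h1, A, B, hA, hB, hc⟩ := h
  refine ⟨?_, A, B, hA, hB, fun c => ?_⟩
  · rw [σ.surjective.range_comp v]; exact h1
  · have h2 := hc (Finsupp.equivMapDomain σ c)
    rw [Finsupp.sum_equivMapDomain, Finsupp.sum_equivMapDomain] at h2
    exact h2

/-- For every real `t` the exponentials with frequencies in the countable set `Lam` form a Riesz
basis of `L²(ρ_t)`. -/
theorem result :
    Lam.Countable ∧ ∀ t : ℝ, ∃ v : Lam → Lp ℂ 2 (rho t),
      (∀ l : Lam, v l =ᵐ[rho t] expo l) ∧ IsRieszBasis v := by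
  refine ⟨?_, fun t => ⟨fun l => eL t l, fun l => coe_eL t l, ?_⟩⟩
  · rw [← range_pt]; exact countable_range _
  · let σ : Lam ≃ Fin 4 × ℤ :=
      ((Equiv.ofInjective pt pt_injective).trans (Equiv.setCongr range_pt)).symm
    have h := (riesz_pt t).comp_equiv σ
    have e : (fun l : Lam => eL t l) = (fun i : Fin 4 × ℤ => eL t (pt i)) ∘ σ := by
      funext l
      have : pt (σ l) = l := by
        have := Equiv.apply_symm_apply ((Equiv.ofInjective pt pt_injective).trans
          (Equiv.setCongr range_pt)) l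
        exact congrArg Subtype.val this
      simp only [Function.comp_apply]
      rw [this]
    rw [e]
    exact h

end Pool.Agent.Results.MP_1d4ba1_an.RieszAll
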